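import Mathlib

/-!
# Minimum cost of fast contract-signing protocols

`CFP(N) = 4 N - 6` for every `N ≥ 2`.

Lower bound: for a fast protocol let `h_n(d)` be the 0/1 vector of the parties visited by contract
`n` up to day `d`, and let `U_d` be the span of the differences `h_n(d) - h_m(d)` over the pairs of
contracts which are at the same party on day `d`. If `E_d` envelopes are sent on day `d` and `L_d`
parties hold a contract on day `d`, then `dim U_{d+1} ≤ dim U_d + E_d - L_{d+1}`, while
`dim U_{N-2} ≥ N - L_{N-2}` because `h_n(N-2)` is the all one vector minus the `n`-th unit vector.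
Since `L_d ≥ 2` for `d ≤ N - 2` and `E_{N-2} = N`, the cost is at least `4 N - 6`.
-/

open scoped BigOperators

namespace Pool.Agent.Results.MP_6fb3b3_lc.MinimumCost

/-- A fast protocol for `N` parties: contract `n` is at party `P n d` on day `d`
(`d = 0, …, N - 1`), each `P n` is a permutation, and on day `N - 1` contract `n` is at party `n`. -/
def IsFast (N : ℕ) (P : Fin N → Equiv.Perm (Fin N)) : Prop :=
  ∀ n l : Fin N, (l : ℕ) + 1 = N → P n l = n

open Classical in
/-- The cost: the number of triples `(d, i, j)`, `0 ≤ d ≤ N - 2`, such that some contract `n` has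
`P n d = i` and `P n (d + 1) = j`. -/
noncomputable def cost (N : ℕ) (P : Fin N → Equiv.Perm (Fin N)) : ℕ :=
  (Finset.univ.filter (fun t : Fin N × Fin N × Fin N =>
    ∃ d' : Fin N, (d' : ℕ) = (t.1 : ℕ) + 1 ∧ ∃ n, P n t.1 = t.2.1 ∧ P n d' = t.2.2)).card

/-- `CFP N`: the minimum cost of a fast protocol for `N` parties. -/
noncomputable def CFP (N : ℕ) : ℕ := sInf {c | ∃ P, IsFast N P ∧ cost N P = c}

section lower

variable {k : ℕ} (P : Fin (k + 2) → Equiv.Perm (Fin (k + 2)))

/-- position of contract `n` on day `d` -/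
def pos (n : Fin (k + 2)) (d : ℕ) : Fin (k + 2) :=
  if h : d < k + 2 then P n ⟨d, h⟩ else n

/-- history vector -/
def hist (n : Fin (k + 2)) (d : ℕ) : Fin (k + 2) → ℚ :=
  fun j => ∑ s ∈ Finset.range (d + 1), if pos P n s = j then (1 : ℚ) else 0

/-- envelopes sent on day `d` -/
def env (d : ℕ) : Finset (Fin (k + 2) × Fin (k + 2)) :=
  Finset.univ.image (fun n => (pos P n d, pos P n (d + 1)))

/-- occupied parties on day `d` -/
def occ (d : ℕ) : Finset (Fin (k + 2)) := Finset.univ.image (fun n => pos P n d)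

/-- the span of the differences of the histories -/
def U (d : ℕ) : Submodule ℚ (Fin (k + 2) → ℚ) :=
  Submodule.span ℚ {v | ∃ n m, pos P n d = pos P m d ∧ v = hist P n d - hist P m d}

lemma hist_succ (n : Fin (k + 2)) (d : ℕ) :
    hist P n (d + 1) = hist P n d + fun j => if pos P n (d + 1) = j then (1 : ℚ) else 0 := by
  ext j
  simp only [hist, Pi.add_apply]
  rw [Finset.sum_range_succ]

lemma diff_mem {n m : Fin (k + 2)} {d : ℕ} (h : pos P n d = pos P m d) :
    hist P n d - hist P m d ∈ U P d := Submodule.subset_span ⟨n, m, h, rfl⟩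

lemma diff_mem_succ {n m : Fin (k + 2)} {d : ℕ} (h : pos P n d = pos P m d)
    (h' : pos P n (d + 1) = pos P m (d + 1)) :
    hist P n (d + 1) - hist P m (d + 1) ∈ U P d := by
  rw [hist_succ, hist_succ, h', add_sub_add_right_eq_sub]
  exact diff_mem P h

lemma finrank_U_zero : Module.finrank ℚ (U P 0) = 0 := by
  have : U P 0 = ⊥ := by
    rw [U, Submodule.span_eq_bot]
    rintro v ⟨n, m, h, rfl⟩
    ext j
    simp only [hist, Pi.sub_apply, zero_add, Finset.sum_range_one, h, sub_self, Pi.zero_apply]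
  rw [this]
  exact finrank_bot ℚ _

lemma step (d : ℕ) : Module.finrank ℚ (U P (d + 1)) + (occ P (d + 1)).card
    ≤ Module.finrank ℚ (U P d) + (env P d).card := by
  classical
  have h1 : ∀ e : Fin (k + 2) × Fin (k + 2), ∃ n, e ∈ env P d → (pos P n d, pos P n (d + 1)) = e := by
    intro e
    by_cases he : e ∈ env P d
    · obtain ⟨n, _, hn⟩ := Finset.mem_image.1 he
      exact ⟨n, fun _ => hn⟩
    · exact ⟨0, fun h => absurd h he⟩
  choose r hr using h1
  have h2 : ∀ j : Fin (k + 2), ∃ e, j ∈ occ P (d + 1) → e ∈ env P d ∧ e.2 = j := by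
    intro j
    by_cases hj : j ∈ occ P (d + 1)
    · obtain ⟨n, _, hn⟩ := Finset.mem_image.1 hj
      exact ⟨(pos P n d, pos P n (d + 1)), fun _ =>
        ⟨Finset.mem_image.2 ⟨n, Finset.mem_univ _, rfl⟩, hn⟩⟩
    · exact ⟨(0, 0), fun h => absurd h hj⟩
  choose e0 he0 using h2
  set D : Finset (Fin (k + 2) × Fin (k + 2)) := env P d \ (occ P (d + 1)).image e0 with hD
  set f : Fin (k + 2) × Fin (k + 2) → (Fin (k + 2) → ℚ) := fun e =>
    hist P (r e) (d + 1) - hist P (r (e0 e.2)) (d + 1) with hf
  have hcard : D.card + (occ P (d + 1)).card = (env P d).card := by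
    have hi : ((occ P (d + 1)).image e0).card = (occ P (d + 1)).card := by
      apply Finset.card_image_of_injOn
      intro j hj j' hj' h
      rw [← (he0 j hj).2, ← (he0 j' hj').2, h]
    rw [← hi, hD]
    apply Finset.card_sdiff_add_card_eq_card
    intro e he
    obtain ⟨j, hj, rfl⟩ := Finset.mem_image.1 he
    exact (he0 j hj).1
  have hmemf : ∀ e ∈ env P d, f e ∈ U P d ⊔ Submodule.span ℚ ((D.image f : Finset _) : Set _) := by
    intro e he
    by_cases hi : e ∈ (occ P (d + 1)).image e0
    · obtain ⟨j, hj, hje⟩ := Finset.mem_image.1 hi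
      have h3 : e.2 = j := by rw [← hje]; exact (he0 j hj).2
      have h4 : f e = 0 := by
        simp only [hf]
        rw [h3, hje, sub_self]
      rw [h4]
      exact Submodule.zero_mem _
    · apply Submodule.mem_sup_right
      apply Submodule.subset_span
      rw [Finset.mem_coe]
      exact Finset.mem_image_of_mem _ (Finset.mem_sdiff.2 ⟨he, hi⟩)
  have hle : U P (d + 1) ≤ U P d ⊔ Submodule.span ℚ ((D.image f : Finset _) : Set _) := by
    rw [U, Submodule.span_le]
    rintro v ⟨n, m, hnm, rfl⟩
    set en : Fin (k + 2) × Fin (k + 2) := (pos P n d, pos P n (d + 1)) with hen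
    set em : Fin (k + 2) × Fin (k + 2) := (pos P m d, pos P m (d + 1)) with hem
    have hen' : en ∈ env P d := Finset.mem_image.2 ⟨n, Finset.mem_univ _, rfl⟩
    have hem' : em ∈ env P d := Finset.mem_image.2 ⟨m, Finset.mem_univ _, rfl⟩
    have hrn := hr en hen'
    have hrm := hr em hem'
    rw [hen, Prod.mk.injEq] at hrn
    rw [hem, Prod.mk.injEq] at hrm
    have a1 : hist P n (d + 1) - hist P (r en) (d + 1) ∈ U P d :=
      diff_mem_succ P hrn.1.symm hrn.2.symm
    have a2 : hist P m (d + 1) - hist P (r em) (d + 1) ∈ U P d :=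
      diff_mem_succ P hrm.1.symm hrm.2.symm
    have a3 : hist P n (d + 1) - hist P m (d + 1)
        = ((hist P n (d + 1) - hist P (r en) (d + 1)) - (hist P m (d + 1) - hist P (r em) (d + 1)))
          + (f en - f em) := by
      have : e0 en.2 = e0 em.2 := by
        rw [hen, hem]
        simp only
        rw [hnm]
      simp only [hf]
      rw [this]
      abel
    rw [a3]
    exact Submodule.add_mem _ (Submodule.mem_sup_left (Submodule.sub_mem _ a1 a2))
      (Submodule.sub_mem _ (hmemf en hen') (hmemf em hem'))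
  have h5 := Submodule.finrank_mono hle
  have h6 := Submodule.finrank_add_le_finrank_add_finrank (U P d)
    (Submodule.span ℚ ((D.image f : Finset _) : Set (Fin (k + 2) → ℚ)))
  have h7 : Module.finrank ℚ (Submodule.span ℚ ((D.image f : Finset _) : Set (Fin (k + 2) → ℚ)))
      ≤ D.card := (finrank_span_finset_le_card (R := ℚ) (D.image f)).trans Finset.card_image_le
  omega

lemma finrank_U_le (d : ℕ) (hL : ∀ s, 1 ≤ s → s ≤ d → 2 ≤ (occ P s).card) :
    Module.finrank ℚ (U P (d + 1)) + (occ P (d + 1)).card + 2 * d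
      ≤ ∑ s ∈ Finset.range (d + 1), (env P s).card := by
  induction d with
  | zero =>
    have := step P 0
    rw [finrank_U_zero] at this
    simpa using this
  | succ d ih =>
    have h1 := ih (fun s hs hs' => hL s hs (by omega))
    have h2 := step P (d + 1)
    have h3 := hL (d + 1) (by omega) le_rfl
    rw [Finset.sum_range_succ]
    omega

variable {P}

lemma pos_last (hP : IsFast (k + 2) P) (n : Fin (k + 2)) : pos P n (k + 1) = n := by
  rw [pos, dif_pos (by omega)]
  exact hP n _ rfl

lemma pos_ne (hP : IsFast (k + 2) P) (n : Fin (k + 2)) {d : ℕ} (hd : d ≤ k) : pos P n d ≠ n := by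
  intro h
  have h1 := pos_last hP n
  rw [← h] at h1
  rw [h] at h1
  rw [pos, dif_pos (show d < k + 2 by omega)] at h
  rw [pos, dif_pos (show k + 1 < k + 2 by omega)] at h1
  have := (P n).injective (h.trans h1.symm)
  rw [Fin.mk.injEq] at this
  omega

lemma two_le_occ (hP : IsFast (k + 2) P) {d : ℕ} (hd : d ≤ k) : 2 ≤ (occ P d).card := by
  set i := pos P 0 d with hi
  have h1 : i ∈ occ P d := Finset.mem_image_of_mem _ (Finset.mem_univ _)
  have h2 : pos P i d ∈ occ P d := Finset.mem_image_of_mem _ (Finset.mem_univ _)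
  have h3 : pos P i d ≠ i := pos_ne hP i hd
  exact Finset.one_lt_card.2 ⟨_, h2, _, h1, h3⟩

lemma hist_last (hP : IsFast (k + 2) P) (n : Fin (k + 2)) :
    hist P n k = fun j => 1 - if n = j then (1 : ℚ) else 0 := by
  ext j
  have h1 : ∑ s ∈ Finset.range (k + 2), (if pos P n s = j then (1 : ℚ) else 0) = 1 := by
    rw [Finset.sum_range]
    have h2 : ∀ s : Fin (k + 2), (if pos P n s = j then (1 : ℚ) else 0)
        = if P n s = j then (1 : ℚ) else 0 := by
      intro s
      rw [pos, dif_pos s.2]
    simp_rw [h2]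
    rw [Equiv.sum_comp (P n) (fun t => if t = j then (1 : ℚ) else 0)]
    simp
  rw [Finset.sum_range_succ, pos_last hP] at h1
  simp only [hist]
  linarith

lemma finrank_U_last (hP : IsFast (k + 2) P) :
    k + 2 ≤ Module.finrank ℚ (U P k) + (occ P k).card := by
  classical
  have h1 : ∀ i : Fin (k + 2), ∃ n, i ∈ occ P k → pos P n k = i := by
    intro i
    by_cases hi : i ∈ occ P k
    · obtain ⟨n, _, hn⟩ := Finset.mem_image.1 hi
      exact ⟨n, fun _ => hn⟩
    · exact ⟨0, fun h => absurd h hi⟩
  choose r hr using h1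
  set g : Fin (k + 2) → (Fin (k + 2) → ℚ) := fun i => Pi.single (r i) 1 with hg
  have htop : (⊤ : Submodule ℚ (Fin (k + 2) → ℚ))
      ≤ U P k ⊔ Submodule.span ℚ (((occ P k).image g : Finset _) : Set _) := by
    rw [← (Pi.basisFun ℚ (Fin (k + 2))).span_eq, Submodule.span_le]
    rintro v ⟨n, rfl⟩
    rw [Pi.basisFun_apply]
    set i := pos P n k with hi
    have hiL : i ∈ occ P k := Finset.mem_image_of_mem _ (Finset.mem_univ _)
    have h2 : (Pi.single n 1 : Fin (k + 2) → ℚ)
        = (hist P (r i) k - hist P n k) + Pi.single (r i) 1 := by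
      rw [hist_last hP, hist_last hP]
      ext j
      have e1 : ∀ a : Fin (k + 2), (Pi.single a 1 : Fin (k + 2) → ℚ) j
          = if a = j then (1 : ℚ) else 0 := by
        intro a
        rw [Pi.single_apply]
        exact if_congr eq_comm rfl rfl
      simp only [Pi.add_apply, Pi.sub_apply]
      rw [e1, e1]
      ring
    rw [h2]
    refine Submodule.add_mem _ (Submodule.mem_sup_left (diff_mem P ?_)) (Submodule.mem_sup_right
      (Submodule.subset_span ?_))
    · rw [hr i hiL]
    · rw [Finset.mem_coe]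
      exact Finset.mem_image_of_mem _ hiL
  have h5 := Submodule.finrank_mono htop
  rw [finrank_top, Module.finrank_fin_fun] at h5
  have h6 := Submodule.finrank_add_le_finrank_add_finrank (U P k)
    (Submodule.span ℚ (((occ P k).image g : Finset _) : Set (Fin (k + 2) → ℚ)))
  have h7 : Module.finrank ℚ
      (Submodule.span ℚ (((occ P k).image g : Finset _) : Set (Fin (k + 2) → ℚ)))
      ≤ (occ P k).card :=
    (finrank_span_finset_le_card (R := ℚ) ((occ P k).image g)).trans Finset.card_image_le
  omega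

lemma env_last (hP : IsFast (k + 2) P) : k + 2 ≤ (env P k).card := by
  rw [env, Finset.card_image_of_injective, Finset.card_univ, Fintype.card_fin]
  intro n m h
  simp only [Prod.mk.injEq] at h
  rw [pos_last hP, pos_last hP] at h
  exact h.2

lemma sum_env_le_cost : ∑ d ∈ Finset.range (k + 1), (env P d).card ≤ cost (k + 2) P := by
  classical
  rw [← Finset.card_sigma, cost]
  refine Finset.card_le_card_of_injOn
    (fun x : (_ : ℕ) × (Fin (k + 2) × Fin (k + 2)) =>
      ((Fin.ofNat (k + 2) x.1 : Fin (k + 2)), x.2.1, x.2.2)) ?_ ?_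
  · rintro ⟨d, e⟩ hx
    rw [Finset.mem_coe, Finset.mem_sigma] at hx
    simp only [Finset.mem_range] at hx
    obtain ⟨n, _, hn⟩ := Finset.mem_image.1 hx.2
    simp only [Finset.coe_filter, Finset.mem_univ, true_and, Set.mem_ofPred_eq]
    have hd : d < k + 2 := by omega
    have hd' : d + 1 < k + 2 := by omega
    refine ⟨⟨d + 1, hd'⟩, ?_, n, ?_, ?_⟩
    · simp [Fin.ofNat, Nat.mod_eq_of_lt hd]
    · rw [← hn]
      simp only [pos, dif_pos hd]
      congr 1
      ext
      simp [Fin.ofNat, Nat.mod_eq_of_lt hd]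
    · rw [← hn]
      simp only [pos, dif_pos hd']
  · rintro ⟨d, e⟩ hx ⟨d', e'⟩ hx' h
    rw [Finset.mem_coe, Finset.mem_sigma] at hx hx'
    simp only [Finset.mem_range] at hx hx'
    simp only [Prod.mk.injEq] at h
    have h1 : d = d' := by
      have := congrArg Fin.val h.1
      simpa [Fin.ofNat, Nat.mod_eq_of_lt (show d < k + 2 by omega),
        Nat.mod_eq_of_lt (show d' < k + 2 by omega)] using this
    subst h1
    have : e = e' := Prod.ext h.2.1 h.2.2
    rw [this]

lemma lower (hP : IsFast (k + 2) P) : 4 * k + 2 ≤ cost (k + 2) P := by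
  refine le_trans ?_ sum_env_le_cost
  rw [Finset.sum_range_succ]
  have h1 := env_last hP
  rcases k with _ | k
  · simpa using h1
  · have h2 := finrank_U_le P k (fun s _ hs => two_le_occ hP (by omega))
    have h3 := finrank_U_last hP
    omega

end lower

section upper

/-- the explicit protocol `(0, 1, …, n - 1, n + 1, …, N - 1, n)` -/
def prot (k : ℕ) (n : Fin (k + 2)) : Equiv.Perm (Fin (k + 2)) :=
  (finSuccEquiv' (Fin.last (k + 1))).trans (finSuccEquiv' n).symm

lemma prot_last (k : ℕ) (n : Fin (k + 2)) : prot k n (Fin.last (k + 1)) = n := by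
  simp [prot]

lemma prot_castSucc (k : ℕ) (n : Fin (k + 2)) (d : Fin (k + 1)) :
    prot k n d.castSucc = n.succAbove d := by
  simp [prot, finSuccEquiv'_last_apply_castSucc]

lemma prot_fast (k : ℕ) : IsFast (k + 2) (prot k) := by
  intro n l hl
  have : l = Fin.last (k + 1) := by
    ext
    simp only [Fin.val_last]
    omega
  rw [this, prot_last]

lemma prot_val (k : ℕ) (n d : Fin (k + 2)) (hd : (d : ℕ) ≤ k) :
    (prot k n d : ℕ) = if (d : ℕ) < n then (d : ℕ) else d + 1 := by
  have h1 : d = (⟨d, by omega⟩ : Fin (k + 1)).castSucc := rfl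
  rw [h1, prot_castSucc]
  simp only [Fin.succAbove, Fin.lt_def, Fin.val_castSucc]
  split_ifs <;> simp

lemma prot_cost (k : ℕ) : cost (k + 2) (prot k) ≤ 4 * k + 2 := by
  classical
  set F : (Fin k × Fin 3) ⊕ Fin (k + 2) → Fin (k + 2) × Fin (k + 2) × Fin (k + 2) := fun x =>
    match x with
    | Sum.inl (d, c) => (⟨d, by omega⟩,
        (if c = 2 then ⟨d + 1, by omega⟩ else ⟨d, by omega⟩),
        (if c = 0 then ⟨d + 1, by omega⟩ else ⟨d + 2, by omega⟩))
    | Sum.inr n => (⟨k, by omega⟩, prot k n ⟨k, by omega⟩, n) with hF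
  have hsub : (Finset.univ.filter (fun t : Fin (k + 2) × Fin (k + 2) × Fin (k + 2) =>
    ∃ d' : Fin (k + 2), (d' : ℕ) = (t.1 : ℕ) + 1 ∧ ∃ n, prot k n t.1 = t.2.1 ∧ prot k n d' = t.2.2))
      ⊆ Finset.univ.image F := by
    rintro ⟨d, i, j⟩ ht
    simp only [Finset.mem_filter, Finset.mem_univ, true_and] at ht
    obtain ⟨d', hd', n, hi, hj⟩ := ht
    rw [Finset.mem_image]
    have hdk : (d : ℕ) ≤ k := by have := d'.2; omega
    by_cases hk : (d : ℕ) = k
    · refine ⟨Sum.inr n, Finset.mem_univ _, ?_⟩
      have h1 : d = ⟨k, by omega⟩ := Fin.ext hk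
      have h2 : d' = Fin.last (k + 1) := by
        ext
        simp only [Fin.val_last]
        omega
      rw [h2, prot_last] at hj
      rw [h1] at hi
      simp only [hF]
      rw [h1, hi, hj]
    · have hdk' : (d : ℕ) < k := by omega
      have v1 := prot_val k n d hdk
      have v2 := prot_val k n d' (by omega)
      rw [hi] at v1
      rw [hj] at v2
      by_cases c1 : (d : ℕ) + 1 < n
      · refine ⟨Sum.inl (⟨d, hdk'⟩, 0), Finset.mem_univ _, ?_⟩
        rw [if_pos (by omega)] at v1 v2
        simp only [hF]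
        ext <;> simp <;> omega
      · by_cases c2 : (d : ℕ) < n
        · refine ⟨Sum.inl (⟨d, hdk'⟩, 1), Finset.mem_univ _, ?_⟩
          rw [if_pos c2] at v1
          rw [if_neg (by omega)] at v2
          simp only [hF]
          ext <;> simp <;> omega
        · refine ⟨Sum.inl (⟨d, hdk'⟩, 2), Finset.mem_univ _, ?_⟩
          rw [if_neg c2] at v1
          rw [if_neg (by omega)] at v2
          simp only [hF]
          ext <;> simp <;> omega
  calc cost (k + 2) (prot k) ≤ (Finset.univ.image F).card := Finset.card_le_card hsub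
    _ ≤ (Finset.univ : Finset ((Fin k × Fin 3) ⊕ Fin (k + 2))).card := Finset.card_image_le
    _ = 4 * k + 2 := by
        rw [Finset.card_univ, Fintype.card_sum, Fintype.card_prod, Fintype.card_fin,
          Fintype.card_fin, Fintype.card_fin]
        omega

end upper

/-- **`CFP(N) = 4 N - 6` for every `N ≥ 2`.** -/
theorem result (N : ℕ) (hN : 2 ≤ N) :
    IsLeast {c | ∃ P, IsFast N P ∧ cost N P = c} (4 * N - 6) ∧ CFP N = 4 * N - 6 := by
  obtain ⟨k, rfl⟩ : ∃ k, N = k + 2 := ⟨N - 2, by omega⟩
  have h1 : 4 * (k + 2) - 6 = 4 * k + 2 := by omega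
  rw [h1]
  have h2 : cost (k + 2) (prot k) = 4 * k + 2 := le_antisymm (prot_cost k) (lower (prot_fast k))
  have h3 : IsLeast {c | ∃ P, IsFast (k + 2) P ∧ cost (k + 2) P = c} (4 * k + 2) := by
    refine ⟨⟨prot k, prot_fast k, h2⟩, ?_⟩
    rintro c ⟨P, hP, rfl⟩
    exact lower hP
  exact ⟨h3, h3.csInf_eq⟩

end Pool.Agent.Results.MP_6fb3b3_lc.MinimumCost
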